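import Pool.Agent.R779.FJ.Gp
import Pool.Agent.Y812.SS.Wr
import Pool.Agent.Y961.FJ.Perm

/-!
# Graph products with a group acting on the vertex groups
-/

set_option autoImplicit false

namespace Pool.Agent.R773.FJ

open Pool.Agent.Y110.FJ
open Pool.Agent.R779.FJ
open Pool.Agent.R779.FJ.Gp
open Pool.Agent.Y462.SS (Closed)

section

variable {V : Type} {Λ : SimpleGraph V} {A : V → Type} [∀ v, Group (A v)] {Q : Type} [Group Q]

/-- the action on the graph product is given by actions on the vertex groups -/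
def VAct (φ : Q →* MulAut (GrP Λ A)) (ψ : ∀ v, Q →* MulAut (A v)) : Prop :=
  ∀ (q : Q) (v : V) (a : A v), φ q (GrP.of Λ A v a) = GrP.of Λ A v (ψ v q a)

variable {φ : Q →* MulAut (GrP Λ A)} {ψ : ∀ v, Q →* MulAut (A v)}

theorem ret_phi (h : VAct φ ψ) (U : Set V) (q : Q) (x : GrP Λ A) :
    ret U (φ q x) = φ q (ret U x) := by
  have : (ret U).comp (φ q).toMonoidHom = ((φ q).toMonoidHom).comp (ret U) := by
    refine hom_ext fun v a => ?_
    show ret U (φ q (GrP.of Λ A v a)) = φ q (ret U (GrP.of Λ A v a))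
    rw [h q v a]
    by_cases hv : v ∈ U
    · rw [ret_of_mem hv, ret_of_mem hv, h q v a]
    · rw [ret_of_not_mem hv, ret_of_not_mem hv, map_one]
  exact DFunLike.congr_fun this x

theorem prj_phi (h : VAct φ ψ) (v : V) (q : Q) (x : GrP Λ A) :
    prj v (φ q x) = ψ v q (prj v x) := by
  have : (prj v).comp (φ q).toMonoidHom = ((ψ v q).toMonoidHom).comp (prj v) := by
    refine hom_ext fun w a => ?_
    show prj v (φ q (GrP.of Λ A w a)) = ψ v q (prj v (GrP.of Λ A w a))
    rw [h q w a]
    by_cases hw : w = v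
    · subst hw
      rw [prj_of, prj_of]
    · rw [prj_of_ne hw, prj_of_ne hw, map_one]
  exact DFunLike.congr_fun this x

theorem phi_mem (h : VAct φ ψ) {U : Set V} (q : Q) {x : GrP Λ A}
    (hx : x ∈ (sub U : Subgroup (GrP Λ A))) : φ q x ∈ (sub U : Subgroup (GrP Λ A)) := by
  refine map_mem (f := (φ q).toMonoidHom) ?_ x hx
  intro v hv a
  show φ q (GrP.of Λ A v a) ∈ _
  rw [h q v a]
  exact of_mem hv _

/-- the retraction of the semidirect product -/
noncomputable def R (h : VAct φ ψ) (U : Set V) : GrP Λ A ⋊[φ] Q →* GrP Λ A ⋊[φ] Q where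
  toFun x := ⟨ret U x.left, x.right⟩
  map_one' := by
    apply SemidirectProduct.ext
    · show ret U 1 = 1
      rw [map_one]
    · rfl
  map_mul' x y := by
    apply SemidirectProduct.ext
    · show ret U (x.left * φ x.right y.left) = ret U x.left * φ x.right (ret U y.left)
      rw [map_mul, ret_phi h]
    · rfl

/-- the part over a set of vertices -/
def sd (h : VAct φ ψ) (U : Set V) : Subgroup (GrP Λ A ⋊[φ] Q) where
  carrier := {x | x.left ∈ (sub U : Subgroup (GrP Λ A))}
  one_mem' := by
    show (1 : GrP Λ A) ∈ (sub U : Subgroup (GrP Λ A))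
    exact Subgroup.one_mem _
  mul_mem' := by
    intro x y hx hy
    exact Subgroup.mul_mem _ hx (phi_mem h _ hy)
  inv_mem' := by
    intro x hx
    exact phi_mem h _ (Subgroup.inv_mem _ hx)

theorem mem_sd (h : VAct φ ψ) {U : Set V} {x : GrP Λ A ⋊[φ] Q} :
    x ∈ sd h U ↔ x.left ∈ (sub U : Subgroup (GrP Λ A)) := Iff.rfl

theorem sd_mono (h : VAct φ ψ) {U U' : Set V} (hU : U ⊆ U') : sd h U ≤ sd h U' :=
  fun _ hx => sub_mono hU hx

theorem R_mem (h : VAct φ ψ) (U : Set V) (x : GrP Λ A ⋊[φ] Q) : R h U x ∈ sd h U :=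
  ret_mem U x.left

theorem R_eq (h : VAct φ ψ) {U : Set V} {x : GrP Λ A ⋊[φ] Q} (hx : x ∈ sd h U) :
    R h U x = x := by
  apply SemidirectProduct.ext
  · exact ret_eq hx
  · rfl

theorem inr_mem (h : VAct φ ψ) (U : Set V) (q : Q) :
    (SemidirectProduct.inr q : GrP Λ A ⋊[φ] Q) ∈ sd h U := by
  show (1 : GrP Λ A) ∈ (sub U : Subgroup (GrP Λ A))
  exact Subgroup.one_mem _

theorem inl_of_mem (h : VAct φ ψ) {U : Set V} {v : V} (hv : v ∈ U) (a : A v) :
    (SemidirectProduct.inl (GrP.of Λ A v a) : GrP Λ A ⋊[φ] Q) ∈ sd h U := of_mem hv a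

/-- the decomposition -/
theorem amgQ (h : VAct φ ψ) (U : Set V) (v : V) (hv : v ∉ U) (L : Set V)
    (hL : L = {u | u ∈ U ∧ Λ.Adj v u}) :
    Amg ((sd h U).subgroupOf (sd h (insert v U)))
      ((sd h (insert v L)).subgroupOf (sd h (insert v U)))
      ((sd h L).subgroupOf (sd h (insert v U))) := by
  classical
  have hLU : L ⊆ U := by
    rw [hL]
    exact fun u hu => hu.1
  refine ⟨?_, ?_, ?_, ?_⟩
  · exact Subgroup.comap_mono (sd_mono h hLU)
  · exact Subgroup.comap_mono (sd_mono h (Set.subset_insert v L))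
  · rw [eq_top_iff]
    rintro ⟨x, hx⟩ -
    have : x ∈ ((sd h U).subgroupOf (sd h (insert v U)) ⊔
        (sd h (insert v L)).subgroupOf (sd h (insert v U))).map
          (sd h (insert v U)).subtype := by
      have h2 : (sub (insert v U) : Subgroup (GrP Λ A)) ≤ (((sd h U).subgroupOf
          (sd h (insert v U)) ⊔ (sd h (insert v L)).subgroupOf
            (sd h (insert v U))).map (sd h (insert v U)).subtype).comap SemidirectProduct.inl := by
        conv_lhs => rw [sub]
        rw [Subgroup.closure_le]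
        rintro _ ⟨u, hu, a, rfl⟩
        refine ⟨⟨SemidirectProduct.inl (GrP.of Λ A u a), inl_of_mem h hu a⟩, ?_, rfl⟩
        rcases hu with rfl | hu
        · exact (le_sup_right : (sd h (insert u L)).subgroupOf
            (sd h (insert u U)) ≤ _) (inl_of_mem h (Set.mem_insert u L) a)
        · exact (le_sup_left : (sd h U).subgroupOf
            (sd h (insert v U)) ≤ _) (inl_of_mem h hu a)
      have h3 : (SemidirectProduct.inr x.right : GrP Λ A ⋊[φ] Q) ∈
          ((sd h U).subgroupOf (sd h (insert v U)) ⊔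
        (sd h (insert v L)).subgroupOf (sd h (insert v U))).map
          (sd h (insert v U)).subtype :=
        ⟨⟨_, inr_mem h _ x.right⟩, (le_sup_left : (sd h U).subgroupOf
            (sd h (insert v U)) ≤ _) (inr_mem h _ x.right), rfl⟩
      have h4 := Subgroup.mul_mem _ (Subgroup.mem_comap.1 (h2 hx)) h3
      have h5 : (SemidirectProduct.inl x.left : GrP Λ A ⋊[φ] Q) * SemidirectProduct.inr x.right = x :=
        SemidirectProduct.inl_left_mul_inr_right x
      rwa [h5] at h4
    obtain ⟨y, hy, hyx⟩ := this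
    have : y = ⟨x, hx⟩ := Subtype.ext hyx
    rwa [← this]
  · intro H _ f g hfg
    have hU' : ∀ x : GrP Λ A ⋊[φ] Q, R h U x ∈ sd h (insert v U) := fun x =>
      sd_mono h (Set.subset_insert v U) (R_mem h U x)
    have hLv : (insert v L : Set V) ⊆ insert v U := Set.insert_subset_insert hLU
    have hL' : ∀ x : GrP Λ A ⋊[φ] Q, R h (insert v L) x ∈ sd h (insert v U) :=
      fun x => sd_mono h hLv (R_mem h _ x)
    let rU : GrP Λ A ⋊[φ] Q →* ↥((sd h U).subgroupOf (sd h (insert v U))) :=
      ((R h U).codRestrict (sd h (insert v U)) hU').codRestrict _ (fun x => R_mem h U x)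
    let rL : GrP Λ A ⋊[φ] Q →* ↥((sd h (insert v L)).subgroupOf (sd h (insert v U))) :=
      ((R h (insert v L)).codRestrict (sd h (insert v U)) hL').codRestrict _
        (fun x => R_mem h _ x)
    have hrU : ∀ (x : GrP Λ A ⋊[φ] Q) (hx : x ∈ sd h U),
        rU x = ⟨⟨x, sd_mono h (Set.subset_insert v U) hx⟩, hx⟩ := by
      intro x hx
      apply Subtype.ext
      apply Subtype.ext
      exact R_eq h hx
    have hrL : ∀ (x : GrP Λ A ⋊[φ] Q) (hx : x ∈ sd h (insert v L)),
        rL x = ⟨⟨x, sd_mono h hLv hx⟩, hx⟩ := by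
      intro x hx
      apply Subtype.ext
      apply Subtype.ext
      exact R_eq h hx
    have hagree : ∀ x ∈ sd h L, f (rU x) = g (rL x) := by
      intro x hx
      rw [hrU x (sd_mono h hLU hx), hrL x (sd_mono h (Set.subset_insert v L) hx)]
      exact hfg ⟨x, _⟩ hx
    have hout : ∀ u, u ∉ U → ∀ b : A u, rU (SemidirectProduct.inl (GrP.of Λ A u b)) = 1 := by
      intro u hu b
      apply Subtype.ext
      apply Subtype.ext
      apply SemidirectProduct.ext
      · exact ret_of_not_mem hu b
      · rfl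
    let iN : GrP Λ A →* GrP Λ A ⋊[φ] Q := SemidirectProduct.inl
    let fam : ∀ u, A u →* H := fun u => if u = v then ((g.comp rL).comp iN).comp (GrP.of Λ A u)
      else ((f.comp rU).comp iN).comp (GrP.of Λ A u)
    have hfam1 : ∀ a : A v, fam v a = g (rL (iN (GrP.of Λ A v a))) := by
      intro a
      show (if v = v then ((g.comp rL).comp iN).comp (GrP.of Λ A v)
        else ((f.comp rU).comp iN).comp (GrP.of Λ A v) : A v →* H) a = _
      rw [if_pos rfl]
      rfl
    have hfam2 : ∀ u, u ≠ v → ∀ a : A u, fam u a = f (rU (iN (GrP.of Λ A u a))) := by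
      intro u hu a
      show (if u = v then ((g.comp rL).comp iN).comp (GrP.of Λ A u)
        else ((f.comp rU).comp iN).comp (GrP.of Λ A u) : A u →* H) a = _
      rw [if_neg hu]
      rfl
    have hcomm1 : ∀ w, Λ.Adj v w → ∀ (a : A v) (b : A w), fam v a * fam w b = fam w b * fam v a := by
      intro w hvw a b
      rw [hfam1, hfam2 w hvw.ne']
      by_cases hw : w ∈ U
      · have hwL : w ∈ L := by rw [hL]; exact ⟨hw, hvw⟩
        rw [hagree (iN (GrP.of Λ A w b)) (inl_of_mem h hwL b), ← map_mul, ← map_mul, ← map_mul, ← map_mul, ← map_mul,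
          ← map_mul, comm hvw]
      · rw [show rU (iN (GrP.of Λ A w b)) = 1 from hout w hw b, map_one]
        simp
    let hN : GrP Λ A →* H := lift fam (by
      intro u w huw a b
      by_cases hu : u = v
      · subst hu
        exact hcomm1 w huw a b
      · by_cases hw : w = v
        · subst hw
          exact (hcomm1 u huw.symm b a).symm
        · rw [hfam2 u hu, hfam2 w hw, ← map_mul, ← map_mul, ← map_mul, ← map_mul, ← map_mul,
            ← map_mul, comm huw])
    have hNof : ∀ u (a : A u), hN (GrP.of Λ A u a) = fam u a := fun u a => lift_of _ _ u a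
    let hQ : Q →* H := (f.comp rU).comp SemidirectProduct.inr
    have hQ2 : ∀ q, hQ q = g (rL (SemidirectProduct.inr q)) := fun q =>
      hagree _ (inr_mem h L q)
    have hconj : ∀ (q : Q) (x : GrP Λ A), iN (φ q x) =
        SemidirectProduct.inr q * iN x * (SemidirectProduct.inr q)⁻¹ := by
      intro q x
      show (SemidirectProduct.inl (φ q x) : GrP Λ A ⋊[φ] Q) = _
      rw [SemidirectProduct.inl_aut, map_inv]
    let h0 : GrP Λ A ⋊[φ] Q →* H := SemidirectProduct.lift hN hQ (by
      intro q
      refine hom_ext fun u a => ?_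
      show hN (φ q (GrP.of Λ A u a)) = hQ q * hN (GrP.of Λ A u a) * (hQ q)⁻¹
      rw [h q u a, hNof, hNof]
      by_cases hu : u = v
      · subst hu
        rw [hfam1, hfam1, hQ2, ← h q u a, hconj, map_mul, map_mul, map_mul, map_mul, map_inv,
          map_inv]
      · rw [hfam2 u hu, hfam2 u hu, ← h q u a, hconj, map_mul, map_mul, map_mul, map_mul, map_inv,
          map_inv]
        rfl)
    have hh0 : ∀ x, h0 x = hN x.left * hQ x.right := fun x => rfl
    refine ⟨h0.comp (sd h (insert v U)).subtype, ?_, ?_⟩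
    · rintro ⟨⟨x, hx⟩, hx'⟩
      have h1 : hN x.left = ((f.comp rU).comp iN) x.left := by
        refine eqOn ?_ x.left hx'
        intro u hu a
        have huv : u ≠ v := fun h => hv (h ▸ hu)
        rw [hNof, hfam2 u huv]
        rfl
      show h0 x = _
      rw [hh0, h1]
      show f (rU (iN x.left)) * f (rU (SemidirectProduct.inr x.right)) = _
      rw [← map_mul, ← map_mul, show iN x.left * SemidirectProduct.inr x.right = x from
        SemidirectProduct.inl_left_mul_inr_right x, hrU x hx']
    · rintro ⟨⟨x, hx⟩, hx'⟩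
      have h1 : hN x.left = ((g.comp rL).comp iN) x.left := by
        refine eqOn ?_ x.left hx'
        intro u hu a
        rw [hNof]
        rcases hu with rfl | hu
        · exact hfam1 a
        · have huv : u ≠ v := fun h => hv (h ▸ hLU hu)
          rw [hfam2 u huv, hagree (iN (GrP.of Λ A u a)) (inl_of_mem h hu a)]
          rfl
      show h0 x = _
      rw [hh0, h1, hQ2]
      show g (rL (iN x.left)) * g (rL (SemidirectProduct.inr x.right)) = _
      rw [← map_mul, ← map_mul, show iN x.left * SemidirectProduct.inr x.right = x from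
        SemidirectProduct.inl_left_mul_inr_right x, hrL x hx']

/-- the projection to a vertex -/
noncomputable def Pr (h : VAct φ ψ) (v : V) : GrP Λ A ⋊[φ] Q →* A v ⋊[ψ v] Q where
  toFun x := ⟨prj v x.left, x.right⟩
  map_one' := by
    apply SemidirectProduct.ext
    · show prj v 1 = 1
      rw [map_one]
    · rfl
  map_mul' x y := by
    apply SemidirectProduct.ext
    · show prj v (x.left * φ x.right y.left) = prj v x.left * ψ v x.right (prj v y.left)
      rw [map_mul, prj_phi h]
    · rfl

theorem fin_sd' (ham : S_AM) {C : ∀ (G : Type) [Group G], Prop} (hC : ClosedE C) (h : VAct φ ψ)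
    (hQ : C Q) (hA : ∀ v, C (A v ⋊[ψ v] Q)) (U : Finset V) : C ↥(sd h (U : Set V)) := by
  classical
  induction U using Finset.induction_on with
  | empty =>
    refine hC.base.of_injective _ Q (SemidirectProduct.rightHom.comp (sd h _).subtype) ?_ hQ
    intro x y hxy
    have h0 : (sub ((∅ : Finset V) : Set V) : Subgroup (GrP Λ A)) = ⊥ := by
      rw [eq_bot_iff, sub, Subgroup.closure_le]
      rintro _ ⟨v, hv, -⟩
      simp at hv
    have hx : x.1.left = 1 := by
      have := (mem_sd h).1 x.2
      rwa [h0, Subgroup.mem_bot] at this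
    have hy : y.1.left = 1 := by
      have := (mem_sd h).1 y.2
      rwa [h0, Subgroup.mem_bot] at this
    apply Subtype.ext
    apply SemidirectProduct.ext
    · rw [hx, hy]
    · exact hxy
  | insert v U hv ih =>
    rw [Finset.coe_insert]
    have hv' : v ∉ (U : Set V) := by simpa using hv
    refine ham C hC _ (↥(sd h (U : Set V)) × (A v ⋊[ψ v] Q)) _ _ _
      (amgQ h (U : Set V) v hv' _ rfl)
      ((((R h (U : Set V)).codRestrict (sd h (U : Set V)) (R_mem h _)).prod (Pr h v)).comp
        (sd h (insert v (U : Set V))).subtype) ?_ ?_ (hC.base.prod _ _ ih (hA v))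
    · rintro ⟨x, hx⟩ hx' h'
      have h1 : R h (U : Set V) x = 1 := congrArg (fun z => (z.1 : GrP Λ A ⋊[φ] Q)) h'
      have h2 : R h (U : Set V) x = x := R_eq h hx'
      exact Subtype.ext (h2.symm.trans h1)
    · rintro ⟨x, hx⟩ hx' h'
      have h1 : R h (U : Set V) x = 1 := congrArg (fun z => (z.1 : GrP Λ A ⋊[φ] Q)) h'
      have h2 : Pr h v x = 1 := congrArg (fun z => z.2) h'
      have h3 : ret (U : Set V) x.left = 1 := congrArg (fun z => z.left) h1
      have h4 : x.right = 1 := congrArg (fun z => z.right) h1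
      have h5 : prj v x.left = 1 := congrArg (fun z => z.left) h2
      obtain ⟨y, hy, a, hya⟩ := star_mem (fun u hu => hu.2) hx'
      change x.left = y * GrP.of Λ A v a at hya
      have hyU : y ∈ (sub (U : Set V) : Subgroup (GrP Λ A)) := sub_mono (fun u hu => hu.1) hy
      rw [hya, map_mul, ret_eq hyU, ret_of_not_mem hv', mul_one] at h3
      rw [hya, map_mul, prj_of, h3, map_one, one_mul] at h5
      apply Subtype.ext
      show x = 1
      apply SemidirectProduct.ext
      · rw [hya, h3, h5, map_one, mul_one]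
        rfl
      · exact h4

/-- **graph products with actions on the vertex groups** -/
theorem gpQ (ham : S_AM) {C : ∀ (G : Type) [Group G], Prop} (hC : ClosedE C) (h : VAct φ ψ)
    (hQ : C Q) (hA : ∀ v, C (A v ⋊[ψ v] Q)) : C (GrP Λ A ⋊[φ] Q) := by
  classical
  refine Pool.Agent.Y430.SS.of_directed hC.base (GrP Λ A ⋊[φ] Q) (Finset V) (fun i j => ?_)
    (fun s => sd h (s : Set V)) (fun s t hst => sd_mono h (by exact_mod_cast hst))
    (fun x => exists_fin x.left) (fun s => fin_sd' ham hC h hQ hA s)
  exact ⟨i ∪ j, Finset.subset_union_left, Finset.subset_union_right⟩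

end

end Pool.Agent.R773.FJ
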