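import Pool.Agent.R773.FJ.GpQ
import Pool.Agent.R779.FJ.Gw

/-!
# A group in which twisted graph automorphisms are inner
-/

set_option autoImplicit false

namespace Pool.Agent.R773.FJ

open Pool.Agent.Y110.FJ
open Pool.Agent.R779.FJ
open Pool.Agent.R779.FJ.Gp
open Pool.Agent.Y462.SS (Closed)

section

variable {M : Type} [Group M] (B : Subgroup M) [hB : B.Normal] {T : Type} (Λ : SimpleGraph T)

/-- the graph product of copies of the normal subgroup -/
abbrev FF : Type := GrP Λ (fun _ : T => ↥B)

/-- the generator of a vertex -/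
def ff (t : T) : ↥B →* FF B Λ := GrP.of Λ (fun _ : T => ↥B) t

omit hB in
theorem ff_ext {H : Type} [Group H] {f g : FF B Λ →* H} (h : ∀ t b, f (ff B Λ t b) = g (ff B Λ t b)) :
    f = g := hom_ext (A := fun _ : T => ↥B) h

/-- conjugation at all vertices -/
def vm (c : T → M) : FF B Λ →* FF B Λ :=
  lift (A := fun _ : T => ↥B) (fun t => (ff B Λ t).comp (MulAut.conjNormal (c t)).toMonoidHom)
    (fun _ _ h a b => comm (A := fun _ : T => ↥B) h (MulAut.conjNormal (c _) a) (MulAut.conjNormal (c _) b))

theorem vm_of (c : T → M) (t : T) (b : B) :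
    vm B Λ c (ff B Λ t b) = ff B Λ t (MulAut.conjNormal (c t) b) :=
  lift_of (A := fun _ : T => ↥B) _ _ t b

theorem vm_mul (c d : T → M) (x : FF B Λ) : vm B Λ (c * d) x = vm B Λ c (vm B Λ d x) := by
  have : vm B Λ (c * d) = (vm B Λ c).comp (vm B Λ d) := by
    refine ff_ext B Λ fun t b => ?_
    rw [MonoidHom.comp_apply, vm_of, vm_of, vm_of, Pi.mul_apply, map_mul]
    rfl
  rw [this]
  rfl

theorem vm_one (x : FF B Λ) : vm B Λ 1 x = x := by
  have : vm B Λ 1 = MonoidHom.id _ := by
    refine ff_ext B Λ fun t b => ?_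
    rw [vm_of, Pi.one_apply, map_one]
    rfl
  rw [this]
  rfl

/-- the action by conjugations at all vertices -/
def vAut : (T → M) →* MulAut (FF B Λ) where
  toFun c :=
    { toFun := vm B Λ c
      invFun := vm B Λ c⁻¹
      left_inv := fun x => by rw [← vm_mul, inv_mul_cancel, vm_one]
      right_inv := fun x => by rw [← vm_mul, mul_inv_cancel, vm_one]
      map_mul' := map_mul _ }
  map_one' := by
    refine MulEquiv.ext fun x => ?_
    exact vm_one B Λ x
  map_mul' c d := by
    refine MulEquiv.ext fun x => ?_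
    exact vm_mul B Λ c d x

theorem vAut_apply (c : T → M) (x : FF B Λ) : vAut B Λ c x = vm B Λ c x := rfl

/-- the vertex actions -/
def psi (t : T) : (T → M) →* MulAut ↥B := MulAut.conjNormal.comp (Pi.evalMonoidHom (fun _ => M) t)

theorem vact : VAct (A := fun _ : T => ↥B) (vAut B Λ) (fun t => psi B t) := fun c t b =>
  vm_of B Λ c t b

/-- the semidirect product with the conjugations -/
abbrev XX : Type := FF B Λ ⋊[vAut B Λ] (T → M)

theorem C_XX (ham : S_AM) {C : ∀ (G : Type) [Group G], Prop} (hC : ClosedE C) [Finite T]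
    (hM : C M) : C (XX B Λ) := by
  have hTM : C (T → M) := Pool.Agent.Y812.SS.C_pow hC.base T M hM
  refine gpQ ham hC (vact B Λ) hTM (fun t => ?_)
  refine hC.base.of_injective _ (M × (T → M))
    (MonoidHom.mk' (fun x => ((x.left : M) * x.right t, x.right)) ?_) ?_
    (hC.base.prod _ _ hM hTM)
  · intro x y
    apply Prod.ext
    · show ((x.left * psi B t x.right y.left : B) : M) * (x.right * y.right) t =
        (x.left : M) * x.right t * ((y.left : M) * y.right t)
      have h1 : ((psi B t x.right y.left : B) : M) = x.right t * y.left * (x.right t)⁻¹ :=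
        MulAut.conjNormal_apply (x.right t) y.left
      rw [Subgroup.coe_mul, h1, Pi.mul_apply]
      group
    · rfl
  · intro x y hxy
    have h1 : (x.left : M) * x.right t = (y.left : M) * y.right t := congrArg Prod.fst hxy
    have h2 : x.right = y.right := congrArg Prod.snd hxy
    rw [h2] at h1
    exact SemidirectProduct.ext (Subtype.ext (mul_right_cancel h1)) h2

/-- an automorphism of the graph as a homomorphism -/
def th (π : AutG Λ) : XX B Λ →* XX B Λ where
  toFun x := ⟨pm Λ (↥B) π x.left, fun t => x.right (π.1⁻¹ t)⟩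
  map_one' := by
    apply SemidirectProduct.ext
    · show pm Λ (↥B) π 1 = 1
      rw [map_one]
    · rfl
  map_mul' x y := by
    apply SemidirectProduct.ext
    · show pm Λ (↥B) π (x.left * vAut B Λ x.right y.left) =
        pm Λ (↥B) π x.left * vAut B Λ (fun t => x.right (π.1⁻¹ t)) (pm Λ (↥B) π y.left)
      rw [map_mul]
      congr 1
      have : (pm Λ (↥B) π).comp (vm B Λ x.right) =
          (vm B Λ (fun t => x.right (π.1⁻¹ t))).comp (pm Λ (↥B) π) := by
        refine ff_ext B Λ fun t b => ?_
        rw [MonoidHom.comp_apply, MonoidHom.comp_apply, vm_of]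
        have h1 : ∀ b : B, pm Λ (↥B) π (ff B Λ t b) = ff B Λ (π.1 t) b := fun b => pm_of Λ (↥B) π t b
        have h2 : π.1⁻¹ (π.1 t) = t := π.1.symm_apply_apply t
        rw [h1, h1, vm_of, h2]
      exact DFunLike.congr_fun this y.left
    · rfl

theorem th_mul (π ρ : AutG Λ) (x : XX B Λ) : th B Λ (π * ρ) x = th B Λ π (th B Λ ρ x) := by
  apply SemidirectProduct.ext
  · exact pm_mul Λ (↥B) π ρ x.left
  · funext t
    show x.right ((π * ρ).1⁻¹ t) = x.right (ρ.1⁻¹ (π.1⁻¹ t))
    congr 1

theorem th_one (x : XX B Λ) : th B Λ 1 x = x := by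
  apply SemidirectProduct.ext
  · exact pm_one Λ (↥B) x.left
  · rfl

/-- the action of the automorphisms of the graph -/
def thAut : AutG Λ →* MulAut (XX B Λ) where
  toFun π :=
    { toFun := th B Λ π
      invFun := th B Λ π⁻¹
      left_inv := fun x => by rw [← th_mul, inv_mul_cancel, th_one]
      right_inv := fun x => by rw [← th_mul, mul_inv_cancel, th_one]
      map_mul' := map_mul _ }
  map_one' := by
    refine MulEquiv.ext fun x => ?_
    exact th_one B Λ x
  map_mul' c d := by
    refine MulEquiv.ext fun x => ?_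
    exact th_mul B Λ c d x

/-- the group -/
abbrev PP : Type := XX B Λ ⋊[thAut B Λ] AutG Λ

theorem C_PP (ham : S_AM) {C : ∀ (G : Type) [Group G], Prop} (hC : ClosedE C) [Finite T]
    (hM : C M) : C (PP B Λ) :=
  Pool.Agent.Y961.FJ.fin_sd hC.base _ _ _ (C_XX B Λ ham hC hM)

/-- the embedding of the graph product -/
def iF : FF B Λ →* PP B Λ :=
  (SemidirectProduct.inl : XX B Λ →* PP B Λ).comp (SemidirectProduct.inl : FF B Λ →* XX B Λ)

theorem iF_injective : Function.Injective (iF B Λ) :=
  (SemidirectProduct.inl_injective).comp (SemidirectProduct.inl_injective)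

/-- the element of the conjugations -/
def iC : (T → M) →* PP B Λ :=
  (SemidirectProduct.inl : XX B Λ →* PP B Λ).comp (SemidirectProduct.inr : (T → M) →* XX B Λ)

/-- the element of the automorphisms of the graph -/
def iA : AutG Λ →* PP B Λ := (SemidirectProduct.inr : AutG Λ →* PP B Λ)

theorem conj_iC (c : T → M) (x : FF B Λ) :
    iC B Λ c * iF B Λ x * (iC B Λ c)⁻¹ = iF B Λ (vm B Λ c x) := by
  have h1 : (SemidirectProduct.inr c : XX B Λ) * SemidirectProduct.inl x *
      (SemidirectProduct.inr c)⁻¹ = SemidirectProduct.inl (vAut B Λ c x) := by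
    rw [SemidirectProduct.inl_aut, map_inv]
  show (SemidirectProduct.inl (SemidirectProduct.inr c : XX B Λ) : PP B Λ) *
    SemidirectProduct.inl (SemidirectProduct.inl x : XX B Λ) *
      (SemidirectProduct.inl (SemidirectProduct.inr c : XX B Λ))⁻¹ = _
  rw [← map_inv, ← map_mul, ← map_mul, h1]
  rfl

theorem conj_iA (π : AutG Λ) (x : FF B Λ) :
    iA B Λ π * iF B Λ x * (iA B Λ π)⁻¹ = iF B Λ (pm Λ (↥B) π x) := by
  have h1 : (SemidirectProduct.inr π : PP B Λ) *
      SemidirectProduct.inl (SemidirectProduct.inl x : XX B Λ) *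
      (SemidirectProduct.inr π)⁻¹ = SemidirectProduct.inl (thAut B Λ π
        (SemidirectProduct.inl x : XX B Λ)) := by
    rw [SemidirectProduct.inl_aut, map_inv]
  have h2 : thAut B Λ π (SemidirectProduct.inl x : XX B Λ) =
      SemidirectProduct.inl (pm Λ (↥B) π x) := by
    apply SemidirectProduct.ext
    · rfl
    · rfl
  show (SemidirectProduct.inr π : PP B Λ) *
      SemidirectProduct.inl (SemidirectProduct.inl x : XX B Λ) *
      (SemidirectProduct.inr π)⁻¹ = _
  rw [h1, h2]
  rfl

/-- conjugation by the product of three elements -/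
theorem conj_all (y : FF B Λ) (π : AutG Λ) (c : T → M) (x : FF B Λ) :
    (iF B Λ y * (iA B Λ π * iC B Λ c)) * iF B Λ x * (iF B Λ y * (iA B Λ π * iC B Λ c))⁻¹ =
      iF B Λ (y * pm Λ (↥B) π (vm B Λ c x) * y⁻¹) := by
  have : (iF B Λ y * (iA B Λ π * iC B Λ c)) * iF B Λ x * (iF B Λ y * (iA B Λ π * iC B Λ c))⁻¹ =
      iF B Λ y * (iA B Λ π * (iC B Λ c * iF B Λ x * (iC B Λ c)⁻¹) * (iA B Λ π)⁻¹) *
        (iF B Λ y)⁻¹ := by group
  rw [this, conj_iC, conj_iA, map_mul, map_mul, map_inv]

end

end Pool.Agent.R773.FJ
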