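import Pool.Agent.R773.FJ.Rt
import Pool.Agent.Y417.FJ.Am
import Pool.Agent.Y529.FJ.Ext

/-!
# Extensions by graph products with permuted vertex groups
-/

set_option autoImplicit false

namespace Pool.Agent.R773.FJ

open Pool.Agent.Y110.FJ
open Pool.Agent.R779.FJ
open Pool.Agent.R779.FJ.Gp
open Pool.Agent.Y462.SS (Closed)

/-- `N` is the graph product of the subgroups `A v` -/
def IsGP {G V : Type} [Group G] (N : Subgroup G) (Λ : SimpleGraph V) (A : V → Subgroup G) : Prop :=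
  ∃ e : GrP Λ (fun v => ↥(A v)) →* G, Function.Injective e ∧ e.range = N ∧
    ∀ (v : V) (a : A v), e (GrP.of Λ (fun v => ↥(A v)) v a) = a

section pi

variable {C : ∀ (G : Type) [Group G], Prop}

theorem C_fin (hC : Closed C) : ∀ (n : ℕ) (K : Fin n → Type) [∀ i, Group (K i)], (∀ i, C (K i)) →
    C (∀ i, K i) := by
  intro n
  induction n with
  | zero =>
    intro K _ _
    exact Pool.Agent.Y812.SS.C_subsingleton hC _
  | succ n ih =>
    intro K _ hK
    refine hC.of_injective _ (K 0 × (∀ i : Fin n, K i.succ))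
      (MonoidHom.mk' (fun x => (x 0, fun i => x i.succ)) (fun x y => rfl)) ?_
      (hC.prod _ _ (hK 0) (ih (fun i => K i.succ) (fun i => hK i.succ)))
    intro x y hxy
    have h1 : x 0 = y 0 := congrArg Prod.fst hxy
    have h2 : (fun i : Fin n => x i.succ) = (fun i : Fin n => y i.succ) := congrArg Prod.snd hxy
    funext i
    refine Fin.cases h1 (fun i => ?_) i
    exact congrFun h2 i

theorem C_pi (hC : Closed C) (I : Type) [Finite I] (K : I → Type) [∀ i, Group (K i)]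
    (hK : ∀ i, C (K i)) : C (∀ i, K i) := by
  obtain ⟨n, ⟨e⟩⟩ := Finite.exists_equiv_fin I
  refine hC.of_injective _ (∀ j : Fin n, K (e.symm j))
    (MonoidHom.mk' (fun x j => x (e.symm j)) (fun x y => rfl)) ?_
    (C_fin hC n (fun j => K (e.symm j)) (fun j => hK _))
  intro x y hxy
  funext i
  have h1 := congrFun hxy (e i)
  have h2 : x (e.symm (e i)) = y (e.symm (e i)) := h1
  rwa [e.symm_apply_apply] at h2

end pi

section twist

variable {G V : Type} [Group G] {Λ : SimpleGraph V} {A : V → Subgroup G} {g : G}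
  {τ : Equiv.Perm V} 

/-- conjugation by `g` permutes the subgroups like `τ` -/
def Moves (A : V → Subgroup G) (g : G) (τ : Equiv.Perm V) : Prop :=
  ∀ (v : V) (x : G), x ∈ A v ↔ g * x * g⁻¹ ∈ A (τ v)

theorem moves_nat (h : Moves A g τ) (k : ℕ) : Moves A (g ^ k) (τ ^ k) := by
  induction k with
  | zero => intro v x; simp
  | succ k ih =>
    intro v x
    rw [ih v x, h _ _, pow_succ', pow_succ']
    show _ ↔ _ ∈ A (τ ((τ ^ k) v))
    rw [show g * (g ^ k * x * (g ^ k)⁻¹) * g⁻¹ = g * g ^ k * x * (g * g ^ k)⁻¹ by group]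

theorem moves_inv (h : Moves A g τ) : Moves A g⁻¹ τ⁻¹ := by
  intro v x
  have h1 := h (τ⁻¹ v) (g⁻¹ * x * g⁻¹⁻¹)
  have h2 : τ (τ⁻¹ v) = v := τ.apply_symm_apply v
  rw [h2, show g * (g⁻¹ * x * g⁻¹⁻¹) * g⁻¹ = x by group] at h1
  exact h1.symm

theorem moves_zpow (h : Moves A g τ) (k : ℤ) : Moves A (g ^ k) (τ ^ k) := by
  cases k with
  | ofNat k =>
    have := moves_nat h k
    simpa using this
  | negSucc k =>
    have := moves_inv (moves_nat h (k + 1))
    simpa [zpow_negSucc] using this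

variable (τ) in
/-- the representative of the cycle -/
noncomputable def rep (v : V) : V := (Quotient.mk (Equiv.Perm.SameCycle.setoid τ) v).out

theorem rep_same (v : V) : τ.SameCycle (rep τ v) v :=
  Quotient.mk_out (s := Equiv.Perm.SameCycle.setoid τ) v

variable (τ) in
/-- the position in the cycle -/
noncomputable def idx (v : V) : ℤ := Classical.choose (rep_same (τ := τ) v)

theorem idx_spec (v : V) : (τ ^ idx τ v) (rep τ v) = v := Classical.choose_spec (rep_same (τ := τ) v)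

theorem idx_spec' (v : V) : (τ ^ (-idx τ v)) v = rep τ v := by
  rw [zpow_neg, Equiv.Perm.inv_eq_iff_eq]
  exact (idx_spec v).symm

theorem rep_tau (v : V) : rep τ (τ v) = rep τ v := by
  unfold rep
  congr 1
  apply Quotient.sound
  show τ.SameCycle (τ v) v
  exact (Equiv.Perm.sameCycle_apply_left).2 (Equiv.Perm.SameCycle.refl τ v)

variable (A g τ) in
/-- the vertex group with the first return -/
noncomputable def KK (o : V) : Subgroup G :=
  A o ⊔ Subgroup.zpowers (g ^ Function.minimalPeriod τ o)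

theorem mem_KK {o : V} {k : ℤ} (hk : (τ ^ k) o = o) : g ^ k ∈ KK A g τ o := by
  have h1 : (Function.minimalPeriod τ o : ℤ) ∣ k := by
    have := (MulAction.zpow_smul_eq_iff_minimalPeriod_dvd (a := τ) (b := o) (n := k)).1 hk
    exact this
  obtain ⟨c, rfl⟩ := h1
  rw [zpow_mul, zpow_natCast]
  exact (le_sup_right : Subgroup.zpowers (g ^ Function.minimalPeriod τ o) ≤ _)
    (Subgroup.zpow_mem _ (Subgroup.mem_zpowers _) c)

theorem le_KK (o : V) : A o ≤ KK A g τ o := le_sup_left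

theorem KK_normal (h : Moves A g τ) (o : V) {k x : G} (hk : k ∈ KK A g τ o) (hx : x ∈ A o) :
    k * x * k⁻¹ ∈ A o := by
  have h1 : KK A g τ o ≤ Subgroup.normalizer (A o : Set G) := by
    refine sup_le Subgroup.le_normalizer ?_
    rw [Subgroup.zpowers_le, Subgroup.mem_normalizer_iff]
    intro x
    have h2 := moves_nat h (Function.minimalPeriod τ o) o x
    have h3 : (τ ^ Function.minimalPeriod τ o) o = o := by
      have := Function.iterate_minimalPeriod (f := τ) (x := o)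
      rwa [← Equiv.Perm.coe_pow] at this
    rwa [h3] at h2
  exact (Subgroup.mem_normalizer_iff.1 (h1 hk) x).1 hx

/-! ### the embeddings of the vertex groups -/

section vert

variable (h : Moves A g τ) (O : Finset V)

variable (A g τ) in
/-- the product of the groups of the representatives -/
abbrev MM : Type := ∀ o : {o // o ∈ O}, ↥(KK A g τ o.1)

variable (A g τ) in
/-- the product of the vertex groups -/
def BB : Subgroup (MM A g τ O) where
  carrier := {x : MM A g τ O | ∀ o : {o // o ∈ O}, (KK A g τ o.1).subtype (x o) ∈ A o.1}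
  one_mem' := fun o => by
    show (1 : G) ∈ A o.1
    exact (A o.1).one_mem
  mul_mem' := fun {x y} hx hy o => by
    show ((x o : ↥(KK A g τ o.1)) : G) * ((y o : ↥(KK A g τ o.1)) : G) ∈ A o.1
    exact (A o.1).mul_mem (hx o) (hy o)
  inv_mem' := fun {x} hx o => by
    show ((x o : ↥(KK A g τ o.1)) : G)⁻¹ ∈ A o.1
    exact (A o.1).inv_mem (hx o)

include h in
theorem BB_normal : (BB A g τ O).Normal :=
  ⟨fun _ hx y o => KK_normal h o.1 (y o).2 (hx o)⟩

open Classical in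
/-- the embedding of a vertex group -/
noncomputable def kap (v : V) : ↥(A v) →* ↥(BB A g τ O) :=
  MonoidHom.mk' (fun a => ⟨fun o => if ho : o.1 = rep τ v then
      ⟨g ^ (-idx τ v) * a * (g ^ (-idx τ v))⁻¹, by
        have h1 := (moves_zpow h (-idx τ v) v a).1 a.2
        rw [idx_spec', ← ho] at h1
        exact le_KK _ h1⟩ else 1, by
      intro o
      show ((if ho : o.1 = rep τ v then _ else _ : ↥(KK A g τ o.1)) : G) ∈ A o.1
      by_cases ho : o.1 = rep τ v
      · rw [dif_pos ho]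
        have h1 := (moves_zpow h (-idx τ v) v a).1 a.2
        rw [idx_spec', ← ho] at h1
        exact h1
      · rw [dif_neg ho]
        exact Subgroup.one_mem _⟩) (by
    intro a b
    apply Subtype.ext
    funext o
    show (if ho : o.1 = rep τ v then _ else _ : ↥(KK A g τ o.1)) =
      (if ho : o.1 = rep τ v then _ else _ : ↥(KK A g τ o.1)) *
      (if ho : o.1 = rep τ v then _ else _ : ↥(KK A g τ o.1))
    by_cases ho : o.1 = rep τ v
    · rw [dif_pos ho, dif_pos ho, dif_pos ho]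
      apply Subtype.ext
      show g ^ (-idx τ v) * ((a : G) * b) * (g ^ (-idx τ v))⁻¹ =
        g ^ (-idx τ v) * a * (g ^ (-idx τ v))⁻¹ * (g ^ (-idx τ v) * b * (g ^ (-idx τ v))⁻¹)
      group
    · rw [dif_neg ho, dif_neg ho, dif_neg ho, one_mul])

open Classical in
theorem kap_pos {v : V} (a : A v) (o : {o // o ∈ O}) (ho : o.1 = rep τ v) :
    (((kap h O v a).1 o : ↥(KK A g τ o.1)) : G) = g ^ (-idx τ v) * a * (g ^ (-idx τ v))⁻¹ := by
  show ((if ho : o.1 = rep τ v then _ else _ : ↥(KK A g τ o.1)) : G) = _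
  rw [dif_pos ho]

open Classical in
theorem kap_neg {v : V} (a : A v) (o : {o // o ∈ O}) (ho : o.1 ≠ rep τ v) :
    (((kap h O v a).1 o : ↥(KK A g τ o.1)) : G) = 1 := by
  show ((if ho : o.1 = rep τ v then _ else _ : ↥(KK A g τ o.1)) : G) = _
  rw [dif_neg ho]
  rfl

theorem idx_cyc (v : V) : (τ ^ (idx τ v + 1 - idx τ (τ v))) (rep τ v) = rep τ v := by
  have h1 : idx τ v + 1 - idx τ (τ v) = - idx τ (τ v) + (1 + idx τ v) := by ring
  rw [h1, zpow_add, zpow_add, Equiv.Perm.mul_apply, Equiv.Perm.mul_apply, idx_spec, zpow_one,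
    idx_spec', rep_tau]

variable (A g τ) in
open Classical in
/-- the first return element -/
noncomputable def cc (v : V) : MM A g τ O := fun o => if ho : o.1 = rep τ v then
  ⟨g ^ (idx τ v + 1 - idx τ (τ v)), mem_KK (by rw [ho]; exact idx_cyc v)⟩ else 1

open Classical in
theorem cc_pos {v : V} (o : {o // o ∈ O}) (ho : o.1 = rep τ v) :
    ((cc A g τ O v o : ↥(KK A g τ o.1)) : G) = g ^ (idx τ v + 1 - idx τ (τ v)) := by
  show ((if ho : o.1 = rep τ v then _ else _ : ↥(KK A g τ o.1)) : G) = _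
  rw [dif_pos ho]

/-- conjugation by `g` of an element of a vertex group -/
def cg (v : V) : ↥(A v) →* ↥(A (τ v)) :=
  MonoidHom.mk' (fun a => ⟨g * a * g⁻¹, (h v a).1 a.2⟩) (by
    intro a b
    apply Subtype.ext
    show g * ((a : G) * b) * g⁻¹ = g * a * g⁻¹ * (g * b * g⁻¹)
    group)

theorem kap_cg (v : V) (a : A v) [hB : (BB A g τ O).Normal] :
    kap h O (τ v) (cg h v a) = MulAut.conjNormal (cc A g τ O v) (kap h O v a) := by
  apply Subtype.ext
  funext o
  apply Subtype.ext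
  have h1 : (((MulAut.conjNormal (cc A g τ O v) (kap h O v a)).1 o :
      ↥(KK A g τ o.1)) : G) = (cc A g τ O v o : G) *
      ((kap h O v a).1 o : G) * (cc A g τ O v o : G)⁻¹ := by
    rw [MulAut.conjNormal_apply]
    rfl
  rw [h1]
  by_cases ho : o.1 = rep τ v
  · rw [kap_pos h O _ o (by rw [rep_tau]; exact ho), kap_pos h O _ o ho, cc_pos O o ho]
    show g ^ (-idx τ (τ v)) * (g * a * g⁻¹) * (g ^ (-idx τ (τ v)))⁻¹ = _
    group
  · rw [kap_neg h O _ o (by rw [rep_tau]; exact ho), kap_neg h O _ o ho]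
    group

/-- the retraction to a vertex group -/
noncomputable def pii {v : V} (hv : rep τ v ∈ O) : ↥(BB A g τ O) →* ↥(A v) :=
  MonoidHom.mk' (fun b => ⟨g ^ (idx τ v) * ((b.1 ⟨rep τ v, hv⟩ : ↥(KK A g τ (rep τ v))) : G) *
      (g ^ (idx τ v))⁻¹, by
        have h1 := (moves_zpow h (idx τ v) (rep τ v) _).1 (b.2 ⟨rep τ v, hv⟩)
        rw [idx_spec] at h1
        exact h1⟩) (by
    intro a b
    apply Subtype.ext
    show g ^ (idx τ v) * (((a.1 ⟨rep τ v, hv⟩ : ↥(KK A g τ (rep τ v))) : G) *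
        ((b.1 ⟨rep τ v, hv⟩ : ↥(KK A g τ (rep τ v))) : G)) * (g ^ (idx τ v))⁻¹ =
      g ^ (idx τ v) * ((a.1 ⟨rep τ v, hv⟩ : ↥(KK A g τ (rep τ v))) : G) * (g ^ (idx τ v))⁻¹ *
      (g ^ (idx τ v) * ((b.1 ⟨rep τ v, hv⟩ : ↥(KK A g τ (rep τ v))) : G) * (g ^ (idx τ v))⁻¹)
    group)

theorem pii_kap {v : V} (hv : rep τ v ∈ O) (a : A v) : pii h O hv (kap h O v a) = a := by
  apply Subtype.ext
  show g ^ (idx τ v) * (((kap h O v a).1 ⟨rep τ v, hv⟩ : ↥(KK A g τ (rep τ v))) : G) *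
      (g ^ (idx τ v))⁻¹ = a
  have h1 := kap_pos h O a ⟨rep τ v, hv⟩ rfl
  rw [show (((kap h O v a).1 ⟨rep τ v, hv⟩ : ↥(KK A g τ (rep τ v))) : G) = _ from h1]
  group

end vert

end twist

/-- the graph product of the subgroups -/
abbrev GA {G V : Type} [Group G] (Λ : SimpleGraph V) (A : V → Subgroup G) : Type :=
  GrP Λ (fun v => ↥(A v))

section graph

variable {G V : Type} [Group G] {Λ : SimpleGraph V} {A : V → Subgroup G} {g : G}
  {τ : Equiv.Perm V} (h : Moves A g τ) (O : Finset V)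

theorem GA_ext {H : Type} [Group H] {f k : GA Λ A →* H}
    (hfk : ∀ v (a : A v), f (GrP.of Λ (fun v => ↥(A v)) v a) = k (GrP.of Λ (fun v => ↥(A v)) v a)) :
    f = k := hom_ext hfk

/-- conjugation by `g` on the graph product -/
def ag (hτ : ∀ v w, Λ.Adj (τ v) (τ w) ↔ Λ.Adj v w) : GA Λ A →* GA Λ A :=
  lift (A := fun v => ↥(A v)) (fun v => (GrP.of Λ (fun v => ↥(A v)) (τ v)).comp (cg h v))
    (fun v w hvw a b => comm (A := fun v => ↥(A v)) ((hτ v w).2 hvw) (cg h v a) (cg h w b))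

theorem ag_of (hτ : ∀ v w, Λ.Adj (τ v) (τ w) ↔ Λ.Adj v w) (v : V) (a : A v) :
    ag h hτ (GrP.of Λ (fun v => ↥(A v)) v a) = GrP.of Λ (fun v => ↥(A v)) (τ v) (cg h v a) :=
  lift_of (A := fun v => ↥(A v)) _ _ v a

theorem e_ag (hτ : ∀ v w, Λ.Adj (τ v) (τ w) ↔ Λ.Adj v w) (e : GA Λ A →* G)
    (he : ∀ (v : V) (a : A v), e (GrP.of Λ (fun v => ↥(A v)) v a) = a) (x : GA Λ A) :
    e (ag h hτ x) = g * e x * g⁻¹ := by
  have : e.comp (ag h hτ) = ((MulAut.conj g).toMonoidHom).comp e := by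
    refine GA_ext fun v a => ?_
    show e (ag h hτ (GrP.of Λ (fun v => ↥(A v)) v a)) = g * e (GrP.of Λ (fun v => ↥(A v)) v a) * g⁻¹
    rw [ag_of, he, he]
    rfl
  exact DFunLike.congr_fun this x

theorem ag_mem (hτ : ∀ v w, Λ.Adj (τ v) (τ w) ↔ Λ.Adj v w) {S : Set V} {R : Set V}
    (hSR : ∀ v ∈ S, τ v ∈ R) {x : GA Λ A} (hx : x ∈ (sub S : Subgroup (GA Λ A))) :
    ag h hτ x ∈ (sub R : Subgroup (GA Λ A)) := by
  refine map_mem (f := ag h hτ) ?_ x hx
  intro v hv a
  rw [ag_of]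
  exact of_mem (A := fun v => ↥(A v)) (hSR v hv) _

variable (R : Finset V) {T : Type} {Λ' : SimpleGraph T} (ι : {v // v ∈ R} → T)
  (hι : Function.Injective ι) (hadj : ∀ x y, Λ'.Adj (ι x) (ι y) ↔ (Λ.comap Subtype.val).Adj x y)

open Classical in
/-- the map to the graph product over the finite graph, at a vertex -/
noncomputable def jv (v : V) : ↥(A v) →* FF (BB A g τ O) Λ' :=
  if hv : v ∈ R then (ff (BB A g τ O) Λ' (ι ⟨v, hv⟩)).comp (kap h O v) else 1

include hadj in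
theorem jv_comm (v w : V) (hvw : Λ.Adj v w) (a : A v) (b : A w) :
    jv h O R (Λ' := Λ') ι v a * jv h O R (Λ' := Λ') ι w b =
      jv h O R (Λ' := Λ') ι w b * jv h O R (Λ' := Λ') ι v a := by
  unfold jv
  by_cases hv : v ∈ R
  · by_cases hw : w ∈ R
    · rw [dif_pos hv, dif_pos hw]
      exact comm (A := fun _ : T => ↥(BB A g τ O)) ((hadj ⟨v, hv⟩ ⟨w, hw⟩).2 hvw) _ _
    · rw [dif_neg hw]
      simp
  · rw [dif_neg hv]
    simp

/-- the map to the graph product over the finite graph -/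
noncomputable def jj : GA Λ A →* FF (BB A g τ O) Λ' :=
  lift (A := fun v => ↥(A v)) (jv h O R (Λ' := Λ') ι) (jv_comm h O R ι hadj)

theorem jj_of {v : V} (hv : v ∈ R) (a : A v) :
    jj h O R ι hadj (GrP.of Λ (fun v => ↥(A v)) v a) =
      ff (BB A g τ O) Λ' (ι ⟨v, hv⟩) (kap h O v a) := by
  unfold jj
  rw [lift_of]
  unfold jv
  rw [dif_pos hv]
  rfl

open Classical in
/-- the retraction, at a vertex -/
noncomputable def rv (hO : ∀ v ∈ R, rep τ v ∈ O) (t : T) : ↥(BB A g τ O) →* GA Λ A :=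
  if ht : ∃ x, ι x = t then (GrP.of Λ (fun v => ↥(A v)) (Classical.choose ht).1).comp
    (pii h O (hO _ (Classical.choose ht).2)) else 1

theorem rv_comm (hadj : ∀ x y, Λ'.Adj (ι x) (ι y) ↔ (Λ.comap Subtype.val).Adj x y)
    (hO : ∀ v ∈ R, rep τ v ∈ O) (s t : T) (hst : Λ'.Adj s t) (a b : ↥(BB A g τ O)) :
    rv (Λ := Λ) h O R ι hO s a * rv (Λ := Λ) h O R ι hO t b =
      rv (Λ := Λ) h O R ι hO t b * rv (Λ := Λ) h O R ι hO s a := by
  unfold rv
  by_cases hs : ∃ x, ι x = s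
  · by_cases ht : ∃ x, ι x = t
    · rw [dif_pos hs, dif_pos ht]
      refine comm (A := fun v => ↥(A v)) ?_ _ _
      have h1 := Classical.choose_spec hs
      have h2 := Classical.choose_spec ht
      have h3 : Λ'.Adj (ι (Classical.choose hs)) (ι (Classical.choose ht)) := by
        rw [h1, h2]; exact hst
      exact (hadj _ _).1 h3
    · rw [dif_neg ht]
      simp
  · rw [dif_neg hs]
    simp

/-- the retraction -/
noncomputable def rr (hO : ∀ v ∈ R, rep τ v ∈ O) : FF (BB A g τ O) Λ' →* GA Λ A :=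
  lift (A := fun _ : T => ↥(BB A g τ O)) (rv (Λ := Λ) h O R ι hO) (rv_comm h O R ι hadj hO)

include hι in
theorem rr_of (hO : ∀ v ∈ R, rep τ v ∈ O) {v : V} (hv : v ∈ R) (b : ↥(BB A g τ O)) :
    rr h O R ι hadj hO (ff (BB A g τ O) Λ' (ι ⟨v, hv⟩) b) =
      GrP.of Λ (fun v => ↥(A v)) v (pii h O (hO v hv) b) := by
  unfold rr ff
  rw [lift_of]
  unfold rv
  have hex : ∃ x, ι x = ι ⟨v, hv⟩ := ⟨_, rfl⟩
  rw [dif_pos hex]
  have h1 : Classical.choose hex = ⟨v, hv⟩ := hι (Classical.choose_spec hex)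
  show GrP.of Λ (fun v => ↥(A v)) (Classical.choose hex).1
    (pii h O (hO _ (Classical.choose hex).2) b) = _
  have h2 : ∀ (z : {v // v ∈ R}), z = ⟨v, hv⟩ → GrP.of Λ (fun v => ↥(A v)) z.1
      (pii h O (hO _ z.2) b) = GrP.of Λ (fun v => ↥(A v)) v (pii h O (hO v hv) b) := by
    rintro z rfl
    rfl
  exact h2 _ h1

include hι in
theorem rr_jj (hO : ∀ v ∈ R, rep τ v ∈ O) {x : GA Λ A}
    (hx : x ∈ (sub (R : Set V) : Subgroup (GA Λ A))) :
    rr h O R ι hadj hO (jj h O R ι hadj x) = x := by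
  refine eqOn (A := fun v => ↥(A v)) (f := (rr h O R ι hadj hO).comp (jj h O R ι hadj))
    (g := MonoidHom.id _) ?_ x hx
  intro v hv a
  have hv' : v ∈ R := hv
  show rr h O R ι hadj hO (jj h O R ι hadj (GrP.of Λ (fun v => ↥(A v)) v a)) =
    GrP.of Λ (fun v => ↥(A v)) v a
  rw [jj_of h O R ι hadj hv', rr_of h O R ι hι hadj hO hv', pii_kap]

open Classical in
variable (A g τ) in
/-- the return elements on the finite graph -/
noncomputable def ct (t : T) : MM A g τ O :=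
  if ht : ∃ x, ι x = t then cc A g τ O (Classical.choose ht).1 else 1

include hι in
theorem ct_of {v : V} (hv : v ∈ R) : ct A g τ O R ι (ι ⟨v, hv⟩) = cc A g τ O v := by
  unfold ct
  have hex : ∃ x, ι x = ι ⟨v, hv⟩ := ⟨_, rfl⟩
  rw [dif_pos hex, hι (Classical.choose_spec hex)]

include hι in
theorem jj_ag [hB : (BB A g τ O).Normal] (hτ : ∀ v w, Λ.Adj (τ v) (τ w) ↔ Λ.Adj v w) {S0 : Set V}
    (hS : ∀ v ∈ S0, v ∈ R) (hSτ : ∀ v ∈ S0, τ v ∈ R) (π : AutG Λ')
    (hπ : ∀ v (hv : v ∈ S0), π.1 (ι ⟨v, hS v hv⟩) = ι ⟨τ v, hSτ v hv⟩) {x : GA Λ A}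
    (hx : x ∈ (sub S0 : Subgroup (GA Λ A))) :
    jj h O R ι hadj (ag h hτ x) =
      pm Λ' (↥(BB A g τ O)) π (vm (BB A g τ O) Λ' (ct A g τ O R ι) (jj h O R ι hadj x)) := by
  refine eqOn (A := fun v => ↥(A v)) (f := (jj h O R ι hadj).comp (ag h hτ))
    (g := ((pm Λ' (↥(BB A g τ O)) π).comp (vm (BB A g τ O) Λ' (ct A g τ O R ι))).comp
      (jj h O R ι hadj)) ?_ x hx
  intro v hv a
  show jj h O R ι hadj (ag h hτ (GrP.of Λ (fun v => ↥(A v)) v a)) =
    pm Λ' (↥(BB A g τ O)) π (vm (BB A g τ O) Λ' (ct A g τ O R ι)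
      (jj h O R ι hadj (GrP.of Λ (fun v => ↥(A v)) v a)))
  rw [ag_of, jj_of h O R ι hadj (hSτ v hv), jj_of h O R ι hadj (hS v hv), vm_of,
    ct_of O R ι hι (hS v hv), kap_cg]
  have h1 : ∀ (t : T) (b : ↥(BB A g τ O)), pm Λ' (↥(BB A g τ O)) π (ff (BB A g τ O) Λ' t b) =
    ff (BB A g τ O) Λ' (π.1 t) b := fun t b => pm_of Λ' (↥(BB A g τ O)) π t b
  rw [h1, hπ v hv]

end graph

/-- **extensions by graph products with permuted vertex groups** -/
theorem tgp {C : ∀ (G : Type) [Group G], Prop} (hC : ClosedE C) {G V : Type} [Group G]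
    (N : Subgroup G) [N.Normal] (Λ : SimpleGraph V) (A : V → Subgroup G) (hN : IsGP N Λ A)
    (hact : ∀ g : G, (∀ k : ℕ, 0 < k → g ^ k ∉ N) → ∃ n ∈ N, ∃ τ : Equiv.Perm V,
      (∀ v w, Λ.Adj (τ v) (τ w) ↔ Λ.Adj v w) ∧ Moves A (n * g) τ ∧
      ∀ (v : V) (m : ℕ), 0 < m → (τ ^ m) v = v → C ↥(A v ⊔ Subgroup.zpowers ((n * g) ^ m)))
    (hA : ∀ v, C (A v)) (hQ : C (G ⧸ N)) : C G := by
  classical
  have hperm := Pool.Agent.Y961.FJ.t_perm Pool.Agent.Y529.FJ.t_ext
  have ham := Pool.Agent.Y417.FJ.t_am hperm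
  obtain ⟨e, he, heN, heof⟩ := hN
  have hCN : C N := by
    refine hC.base.of_injective _ (GA Λ A) ((MonoidHom.ofInjective he).symm.toMonoidHom.comp
      (Subgroup.inclusion (le_of_eq heN.symm))) ?_ (Gp.t_gp ham C hC V Λ (fun v => ↥(A v)) hA)
    exact (MonoidHom.ofInjective he).symm.injective.comp (Subgroup.inclusion_injective _)
  refine Pool.Agent.Y529.FJ.t_ext C hC G N hCN hQ fun g0 hg0 => ?_
  refine t_col hperm C hC G N g0 hg0 fun E hE hEN => ?_
  obtain ⟨n, hn, τ, hτ, h, hAg⟩ := hact g0 hg0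
  obtain ⟨g, hg⟩ : ∃ g, g = n * g0 := ⟨_, rfl⟩
  rw [← hg] at h
  rw [← hg] at hAg
  have hKK : ∀ o, C ↥(KK A g τ o) := by
    intro o
    rcases Nat.eq_zero_or_pos (Function.minimalPeriod τ o) with h0 | h0
    · have : KK A g τ o = A o := by
        unfold KK
        rw [h0, pow_zero, Subgroup.zpowers_one_eq_bot, sup_bot_eq]
      rw [this]
      exact hA o
    · refine hAg o _ h0 ?_
      have := Function.iterate_minimalPeriod (f := τ) (x := o)
      rwa [← Equiv.Perm.coe_pow] at this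
  -- supports
  choose U hU using fun x : GA Λ A => exists_fin x
  have hex : ∀ x ∈ N, ∃ y, e y = x := by
    intro x hx
    rw [← heN] at hx
    exact hx
  obtain ⟨ν, hν⟩ := hex n hn
  let pre : G → GA Λ A := fun x => if hx : ∃ y, e y = x then Classical.choose hx else 1
  have hpre : ∀ x ∈ N, e (pre x) = x := by
    intro x hx
    show e (if hx : ∃ y, e y = x then Classical.choose hx else 1) = x
    rw [dif_pos (hex x hx)]
    exact Classical.choose_spec (hex x hx)
  let S0 : Finset V := (hE.toFinset.biUnion fun x => U (pre x)) ∪ U ν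
  have hS0 : ∀ x ∈ E, ∃ y ∈ (sub (S0 : Set V) : Subgroup (GA Λ A)), e y = x := by
    intro x hx
    refine ⟨pre x, ?_, hpre x (hEN hx)⟩
    refine sub_mono ?_ (hU (pre x))
    intro v hv
    rw [Finset.mem_coe, Finset.mem_union, Finset.mem_biUnion]
    exact Or.inl ⟨x, hE.mem_toFinset.2 hx, hv⟩
  have hν0 : ν ∈ (sub (S0 : Set V) : Subgroup (GA Λ A)) := by
    refine sub_mono ?_ (hU ν)
    intro v hv
    rw [Finset.mem_coe, Finset.mem_union]
    exact Or.inr hv
  let R : Finset V := S0 ∪ S0.image τ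
  have hSR : ∀ v ∈ (S0 : Set V), v ∈ R := by
    intro v hv
    rw [Finset.mem_union]
    exact Or.inl hv
  have hτR : ∀ v ∈ (S0 : Set V), τ v ∈ R := by
    intro v hv
    rw [Finset.mem_union, Finset.mem_image]
    exact Or.inr ⟨v, hv, rfl⟩
  let O : Finset V := R.image (rep τ)
  have hO : ∀ v ∈ R, rep τ v ∈ O := fun v hv => Finset.mem_image_of_mem _ hv
  obtain ⟨T, hT, Λ', ι, τ', hι, hadj, hτ', hιτ⟩ := t_eppa {v // v ∈ R} inferInstance
    (Λ.comap Subtype.val) {x | x.1 ∈ S0} (fun x => ⟨τ x.1.1, hτR _ x.2⟩) (by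
      intro x y hxy
      have h1 : τ x.1.1 = τ y.1.1 := congrArg Subtype.val hxy
      exact Subtype.ext (Subtype.ext (τ.injective h1))) (by
      intro x y
      exact hτ x.1.1 y.1.1)
  let π : AutG Λ' := ⟨τ', hτ'⟩
  have hB : (BB A g τ O).Normal := BB_normal h O
  have hM : C (MM A g τ O) := C_pi hC.base _ _ (fun o => hKK o.1)
  have hagx : ∀ {x : GA Λ A}, x ∈ (sub (S0 : Set V) : Subgroup (GA Λ A)) →
      jj h O R ι hadj (ag h hτ x) = pm Λ' (↥(BB A g τ O)) π
        (vm (BB A g τ O) Λ' (ct A g τ O R ι) (jj h O R ι hadj x)) := fun {x} hx =>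
    jj_ag h O R ι hι hadj hτ (S0 := (S0 : Set V)) hSR hτR π
      (fun v hv => hιτ ⟨⟨v, hSR v hv⟩, hv⟩) hx
  -- conjugation by `g0`
  have hconj : ∀ y : GA Λ A, g0 * e y * g0⁻¹ = e (ν⁻¹ * ag h hτ y * ν) := by
    intro y
    rw [map_mul, map_mul, map_inv, e_ag h hτ e heof, hν, hg]
    group
  have hcl : Subgroup.closure (E ∪ (fun x => g0 * x * g0⁻¹) '' E) ≤
      (sub (R : Set V) : Subgroup (GA Λ A)).map e := by
    rw [Subgroup.closure_le]
    rintro x (hx | ⟨z, hz, rfl⟩)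
    · obtain ⟨y, hy, rfl⟩ := hS0 x hx
      exact ⟨y, sub_mono hSR hy, rfl⟩
    · obtain ⟨y, hy, rfl⟩ := hS0 z hz
      refine ⟨ν⁻¹ * ag h hτ y * ν, ?_, (hconj y).symm⟩
      exact Subgroup.mul_mem _ (Subgroup.mul_mem _ (Subgroup.inv_mem _ (sub_mono hSR hν0))
        (ag_mem h hτ hτR hy)) (sub_mono hSR hν0)
  have hle : Subgroup.closure (E ∪ (fun x => g0 * x * g0⁻¹) '' E) ≤ e.range := by
    refine hcl.trans ?_
    rintro _ ⟨y, -, rfl⟩
    exact ⟨y, rfl⟩
  let ei : ↥e.range →* GA Λ A := (MonoidHom.ofInjective he).symm.toMonoidHom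
  have hei : ∀ x : ↥e.range, e (ei x) = x := by
    intro x
    have h1 := (MonoidHom.ofInjective he).apply_symm_apply x
    exact congrArg Subtype.val h1
  have hei' : ∀ (y : GA Λ A) (hy : e y ∈ e.range), ei ⟨e y, hy⟩ = y := fun y hy =>
    he (hei ⟨e y, hy⟩)
  refine ⟨PP (BB A g τ O) Λ', inferInstance,
    ((iF (BB A g τ O) Λ').comp ((jj h O R ι hadj).comp ei)).comp (Subgroup.inclusion hle),
    iF (BB A g τ O) Λ' (jj h O R ι hadj ν⁻¹) *
      (iA (BB A g τ O) Λ' π * iC (BB A g τ O) Λ' (ct A g τ O R ι)),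
    C_PP (BB A g τ O) Λ' ham hC hM, ?_, ?_⟩
  · intro x y hxy
    have h2 : jj h O R ι hadj (ei (Subgroup.inclusion hle x)) =
        jj h O R ι hadj (ei (Subgroup.inclusion hle y)) := iF_injective _ _ hxy
    obtain ⟨x', hx', hxx⟩ := hcl x.2
    obtain ⟨y', hy', hyy⟩ := hcl y.2
    have h3 : ei (Subgroup.inclusion hle x) = x' := he ((hei _).trans hxx.symm)
    have h4 : ei (Subgroup.inclusion hle y) = y' := he ((hei _).trans hyy.symm)
    rw [h3, h4] at h2
    have h5 : x' = y' := by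
      rw [← rr_jj h O R ι hι hadj hO hx', ← rr_jj h O R ι hι hadj hO hy', h2]
    apply Subtype.ext
    rw [← hxx, ← hyy, h5]
  · intro x y hx hy
    obtain ⟨x', hx', hxx⟩ := hS0 x.1 hx
    have h3 : ei (Subgroup.inclusion hle x) = x' := he ((hei _).trans hxx.symm)
    have h4 : ei (Subgroup.inclusion hle y) = ν⁻¹ * ag h hτ x' * ν := by
      apply he
      rw [hei, ← hconj, hxx]
      exact hy
    show iF (BB A g τ O) Λ' (jj h O R ι hadj (ei (Subgroup.inclusion hle y))) =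
      (iF (BB A g τ O) Λ' (jj h O R ι hadj ν⁻¹) *
      (iA (BB A g τ O) Λ' π * iC (BB A g τ O) Λ' (ct A g τ O R ι))) *
      iF (BB A g τ O) Λ' (jj h O R ι hadj (ei (Subgroup.inclusion hle x))) *
      (iF (BB A g τ O) Λ' (jj h O R ι hadj ν⁻¹) *
      (iA (BB A g τ O) Λ' π * iC (BB A g τ O) Λ' (ct A g τ O R ι)))⁻¹
    rw [h3, h4, conj_all, ← hagx hx', map_inv (jj h O R ι hadj), inv_inv,
      ← map_inv (jj h O R ι hadj), ← map_mul (jj h O R ι hadj), ← map_mul (jj h O R ι hadj)]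

end Pool.Agent.R773.FJ
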