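import Pool.Agent.R773.FJ.Tgp

/-!
# Semidirect products with graph products
-/

set_option autoImplicit false

namespace Pool.Agent.R773.FJ

open Pool.Agent.Y110.FJ
open Pool.Agent.R779.FJ
open Pool.Agent.R779.FJ.Gp
open Pool.Agent.Y462.SS (Closed)

/-- a vertex group as a subgroup of the semidirect product -/
def vg {V Q : Type} [Group Q] {Λ : SimpleGraph V} {A : V → Type} [∀ v, Group (A v)]
    (α : Q →* MulAut (GrP Λ A)) (v : V) : Subgroup (GrP Λ A ⋊[α] Q) :=
  ((SemidirectProduct.inl : GrP Λ A →* GrP Λ A ⋊[α] Q).comp (GrP.of Λ A v)).range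

section

variable {V Q : Type} [Group Q] {Λ : SimpleGraph V} {A : V → Type} [∀ v, Group (A v)]
  (α : Q →* MulAut (GrP Λ A))

theorem inlof_injective (v : V) : Function.Injective
    ((SemidirectProduct.inl : GrP Λ A →* GrP Λ A ⋊[α] Q).comp (GrP.of Λ A v)) :=
  SemidirectProduct.inl_injective.comp (of_injective v)

/-- the isomorphism with the vertex group -/
noncomputable def vge (v : V) : A v ≃* ↥(vg α v) := MonoidHom.ofInjective (inlof_injective α v)

theorem vge_coe (v : V) (a : A v) :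
    ((vge α v a : ↥(vg α v)) : GrP Λ A ⋊[α] Q) = SemidirectProduct.inl (GrP.of Λ A v a) := rfl

/-- the isomorphism of graph products -/
noncomputable def ge : GA Λ (vg α) →* GrP Λ A :=
  lift (A := fun v => ↥(vg α v)) (fun v => (GrP.of Λ A v).comp (vge α v).symm.toMonoidHom)
    (fun _ _ h a b => comm h ((vge α _).symm a) ((vge α _).symm b))

/-- its inverse -/
noncomputable def ge' : GrP Λ A →* GA Λ (vg α) :=
  lift (fun v => (GrP.of Λ (fun v => ↥(vg α v)) v).comp (vge α v).toMonoidHom)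
    (fun _ _ h a b => comm (A := fun v => ↥(vg α v)) h (vge α _ a) (vge α _ b))

theorem ge_of (v : V) (a : ↥(vg α v)) :
    ge α (GrP.of Λ (fun v => ↥(vg α v)) v a) = GrP.of Λ A v ((vge α v).symm a) :=
  lift_of (A := fun v => ↥(vg α v)) _ _ v a

theorem ge'_of (v : V) (a : A v) :
    ge' α (GrP.of Λ A v a) = GrP.of Λ (fun v => ↥(vg α v)) v (vge α v a) :=
  lift_of _ _ v a

theorem ge'_ge (x : GA Λ (vg α)) : ge' α (ge α x) = x := by
  have : (ge' α).comp (ge α) = MonoidHom.id _ := by
    refine GA_ext fun v a => ?_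
    show ge' α (ge α (GrP.of Λ (fun v => ↥(vg α v)) v a)) = GrP.of Λ (fun v => ↥(vg α v)) v a
    rw [ge_of, ge'_of, MulEquiv.apply_symm_apply]
  exact DFunLike.congr_fun this x

theorem ge_ge' (x : GrP Λ A) : ge α (ge' α x) = x := by
  have : (ge α).comp (ge' α) = MonoidHom.id _ := by
    refine hom_ext fun v a => ?_
    show ge α (ge' α (GrP.of Λ A v a)) = GrP.of Λ A v a
    rw [ge'_of, ge_of, MulEquiv.symm_apply_apply]
  exact DFunLike.congr_fun this x

theorem isGP_sd : IsGP (SemidirectProduct.rightHom : GrP Λ A ⋊[α] Q →* Q).ker Λ (vg α) := by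
  refine ⟨(SemidirectProduct.inl).comp (ge α), ?_, ?_, ?_⟩
  · exact SemidirectProduct.inl_injective.comp
      (Function.LeftInverse.injective (ge'_ge α))
  · ext x
    constructor
    · rintro ⟨y, rfl⟩
      exact SemidirectProduct.rightHom_inl _
    · intro hx
      have hx' : x.right = 1 := hx
      refine ⟨ge' α x.left, ?_⟩
      show (SemidirectProduct.inl (ge α (ge' α x.left)) : GrP Λ A ⋊[α] Q) = x
      rw [ge_ge']
      exact inl_lft α x hx'
  · intro v a
    show (SemidirectProduct.inl (ge α (GrP.of Λ (fun v => ↥(vg α v)) v a)) : GrP Λ A ⋊[α] Q) = a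
    rw [ge_of, ← vge_coe, MulEquiv.apply_symm_apply]

/-- **semidirect products** -/
theorem tgp_sd {C : ∀ (G : Type) [Group G], Prop} (hC : ClosedE C) [MulAction Q V]
    (hΛ : ∀ (q : Q) (v w : V), Λ.Adj v w → Λ.Adj (q • v) (q • w))
    (hα : ∀ (q : Q) (v : V) (a : A v), ∃ b : A (q • v), α q (GrP.of Λ A v a) = GrP.of Λ A (q • v) b) :
    C (GrP Λ A ⋊[α] Q) ↔ C Q ∧ ∀ (v : V) (q : Q), q • v = v →
      C ↥(vg α v ⊔ Subgroup.zpowers (SemidirectProduct.inr q : GrP Λ A ⋊[α] Q)) := by
  constructor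
  · intro h
    exact ⟨hC.base.of_injective _ _ _ SemidirectProduct.inr_injective h, fun v q _ =>
      hC.base.of_injective _ _ _ (Subgroup.subtype_injective _) h⟩
  rintro ⟨hQ, hv⟩
  have hadj : ∀ (q : Q) (v w : V), Λ.Adj (q • v) (q • w) ↔ Λ.Adj v w := by
    intro q v w
    refine ⟨fun h => ?_, hΛ q v w⟩
    have := hΛ q⁻¹ _ _ h
    rwa [inv_smul_smul, inv_smul_smul] at this
  have hconj : ∀ (q : Q) (y : GrP Λ A), (SemidirectProduct.inr q : GrP Λ A ⋊[α] Q) *
      SemidirectProduct.inl y * (SemidirectProduct.inr q)⁻¹ = SemidirectProduct.inl (α q y) := by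
    intro q y
    rw [SemidirectProduct.inl_aut, map_inv]
  have hmem : ∀ (q : Q) (v : V) (x : GrP Λ A ⋊[α] Q), x ∈ vg α v →
      SemidirectProduct.inr q * x * (SemidirectProduct.inr q)⁻¹ ∈ vg α (q • v) := by
    rintro q v _ ⟨a, rfl⟩
    obtain ⟨b, hb⟩ := hα q v a
    refine ⟨b, ?_⟩
    show (SemidirectProduct.inl (GrP.of Λ A (q • v) b) : GrP Λ A ⋊[α] Q) = _
    rw [← hb]
    exact (hconj q _).symm
  have hmoves : ∀ q : Q, Moves (vg α) (SemidirectProduct.inr q) (MulAction.toPerm q) := by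
    intro q v x
    refine ⟨hmem q v x, fun h => ?_⟩
    have h1 := hmem q⁻¹ _ _ h
    have h2 : q⁻¹ • ((MulAction.toPerm q : Equiv.Perm V) v) = v := inv_smul_smul q v
    rw [h2, map_inv] at h1
    have h3 : (SemidirectProduct.inr q : GrP Λ A ⋊[α] Q)⁻¹ *
        (SemidirectProduct.inr q * x * (SemidirectProduct.inr q)⁻¹) *
        (SemidirectProduct.inr q)⁻¹⁻¹ = x := by group
    rwa [h3] at h1
  refine tgp hC (SemidirectProduct.rightHom : GrP Λ A ⋊[α] Q →* Q).ker Λ (vg α) (isGP_sd α) ?_ ?_ ?_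
  · intro g _
    refine ⟨SemidirectProduct.inl g.left⁻¹, SemidirectProduct.rightHom_inl _,
      MulAction.toPerm g.right, hadj g.right, ?_⟩
    have h1 : (SemidirectProduct.inl g.left⁻¹ : GrP Λ A ⋊[α] Q) * g =
        SemidirectProduct.inr g.right := by
      have h2 : (SemidirectProduct.inl g.left : GrP Λ A ⋊[α] Q) * SemidirectProduct.inr g.right =
        g := SemidirectProduct.inl_left_mul_inr_right g
      rw [map_inv, inv_mul_eq_iff_eq_mul]
      exact h2.symm
    rw [h1]
    refine ⟨hmoves _, fun v m _ hm => ?_⟩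
    rw [← map_pow]
    refine hv v (g.right ^ m) ?_
    have h3 : ((MulAction.toPerm g.right : Equiv.Perm V) ^ m) v = (g.right ^ m) • v := by
      have h4 := map_pow (MulAction.toPermHom Q V) g.right m
      have h5 : (MulAction.toPermHom Q V) (g.right ^ m) = MulAction.toPerm (g.right ^ m) := rfl
      have h6 : (MulAction.toPermHom Q V) g.right = MulAction.toPerm g.right := rfl
      rw [h5, h6] at h4
      rw [← h4]
      rfl
    rwa [h3] at hm
  · intro v
    have h1 := hv v 1 (one_smul Q v)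
    rw [map_one, Subgroup.zpowers_one_eq_bot, sup_bot_eq] at h1
    exact h1
  · exact hC.base.of_injective _ Q (QuotientGroup.kerLift _) (QuotientGroup.kerLift_injective _) hQ

end

end Pool.Agent.R773.FJ
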