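import Pool.Agent.R773.FJ.TgpSd

/-!
# Extensions by graph products: statements
-/

set_option autoImplicit false

namespace Pool.Agent.R773.FJ

open Pool.Agent.Y110.FJ

/-- the graph product of the groups `A v` over the graph `Λ` -/
def GP {V : Type} (Λ : SimpleGraph V) (A : V → Type) [∀ v, Group (A v)] : Type := GrP Λ A

instance instGroupGP {V : Type} (Λ : SimpleGraph V) (A : V → Type) [∀ v, Group (A v)] :
    Group (GP Λ A) := inferInstanceAs (Group (GrP Λ A))

/-- the inclusion of a vertex group -/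
def vx {V : Type} (Λ : SimpleGraph V) (A : V → Type) [∀ v, Group (A v)] (v : V) (a : A v) :
    GP Λ A := GrP.of Λ A v a

/-- the graph product of the subgroups `A v` of a group, as an abstract group -/
def GPS {G V : Type} [Group G] (Λ : SimpleGraph V) (A : V → Subgroup G) : Type :=
  GP Λ (fun v => ↥(A v))

instance instGroupGPS {G V : Type} [Group G] (Λ : SimpleGraph V) (A : V → Subgroup G) :
    Group (GPS Λ A) := inferInstanceAs (Group (GP Λ (fun v => ↥(A v))))

/-- `N` is the graph product of the subgroups `A v`: the inclusions extend to an injective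
homomorphism from the abstract graph product to `G` with image `N` -/
def IsGraphProduct {G V : Type} [Group G] (N : Subgroup G) (Λ : SimpleGraph V)
    (A : V → Subgroup G) : Prop :=
  ∃ e : GPS Λ A →* G, Function.Injective e ∧ e.range = N ∧
    ∀ (v : V) (a : A v), e (vx Λ (fun v => ↥(A v)) v a) = a

/-- the elements of infinite order modulo `N` act, up to elements of `N`, by permutations of the
subgroups `A v` which are automorphisms of the graph, and the subgroups `A v` together with their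
first returns generate groups in `C` -/
def Permuted (C : ∀ (G : Type) [Group G], Prop) {G V : Type} [Group G] (N : Subgroup G)
    (Λ : SimpleGraph V) (A : V → Subgroup G) : Prop :=
  ∀ g : G, (∀ k : ℕ, 0 < k → g ^ k ∉ N) → ∃ n ∈ N, ∃ τ : Equiv.Perm V,
    (∀ v w, Λ.Adj (τ v) (τ w) ↔ Λ.Adj v w) ∧ Moves A (n * g) τ ∧
    ∀ (v : V) (m : ℕ), 0 < m → (τ ^ m) v = v → C ↥(A v ⊔ Subgroup.zpowers ((n * g) ^ m))

/-- the action of `Q` on the graph product permutes the vertex groups -/
def PermutesVertexGroups {V Q : Type} [Group Q] [MulAction Q V] {Λ : SimpleGraph V} {A : V → Type}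
    [∀ v, Group (A v)] (α : Q →* MulAut (GP Λ A)) : Prop :=
  ∀ (q : Q) (v : V) (a : A v), ∃ b : A (q • v), α q (vx Λ A v a) = vx Λ A (q • v) b

/-- the subgroup of the semidirect product generated by a vertex group and an element of `Q` -/
def vq {V Q : Type} [Group Q] {Λ : SimpleGraph V} {A : V → Type} [∀ v, Group (A v)]
    (α : Q →* MulAut (GP Λ A)) (v : V) (q : Q) : Subgroup (GP Λ A ⋊[α] Q) :=
  Subgroup.closure {x | (∃ a : A v, x = SemidirectProduct.inl (vx Λ A v a)) ∨
    x = SemidirectProduct.inr q}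

/-- extensions by graph products -/
def Extensions (C : ∀ (G : Type) [Group G], Prop) : Prop :=
  ∀ (G V : Type) [Group G] (N : Subgroup G) [N.Normal] (Λ : SimpleGraph V) (A : V → Subgroup G),
    IsGraphProduct N Λ A → Permuted C N Λ A → (∀ v, C (A v)) → C (G ⧸ N) → C G

/-- semidirect products with graph products -/
def Semidirect (C : ∀ (G : Type) [Group G], Prop) : Prop :=
  ∀ (V Q : Type) [Group Q] [MulAction Q V] (Λ : SimpleGraph V) (A : V → Type)
    [∀ v, Group (A v)] (α : Q →* MulAut (GP Λ A)),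
    (∀ (q : Q) (v w : V), Λ.Adj v w → Λ.Adj (q • v) (q • w)) → PermutesVertexGroups α →
    (C (GP Λ A ⋊[α] Q) ↔ C Q ∧ ∀ (v : V) (q : Q), q • v = v → C ↥(vq α v q))

theorem t_extensions {C : ∀ (G : Type) [Group G], Prop} (hC : ClosedE C) : Extensions C :=
  fun _ _ _ N _ Λ A hN hact hA hQ => tgp hC N Λ A hN hact hA hQ

section

open Pool.Agent.R779.FJ

/-- the subgroup of the semidirect product generated by a vertex group and an element of `Q` -/
def vq0 {V Q : Type} [Group Q] {Λ : SimpleGraph V} {A : V → Type} [∀ v, Group (A v)]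
    (α : Q →* MulAut (GrP Λ A)) (v : V) (q : Q) : Subgroup (GrP Λ A ⋊[α] Q) :=
  Subgroup.closure {x | (∃ a : A v, x = SemidirectProduct.inl (GrP.of Λ A v a)) ∨
    x = SemidirectProduct.inr q}

theorem vq0_eq {V Q : Type} [Group Q] {Λ : SimpleGraph V} {A : V → Type} [∀ v, Group (A v)]
    (α : Q →* MulAut (GrP Λ A)) (v : V) (q : Q) :
    vq0 α v q = vg α v ⊔ Subgroup.zpowers (SemidirectProduct.inr q) := by
  apply le_antisymm
  · unfold vq0
    rw [Subgroup.closure_le]
    rintro x (⟨a, rfl⟩ | rfl)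
    · exact (le_sup_left : vg α v ≤ _) ⟨a, rfl⟩
    · exact (le_sup_right : Subgroup.zpowers (SemidirectProduct.inr q : GrP Λ A ⋊[α] Q) ≤ _)
        (Subgroup.mem_zpowers _)
  · refine sup_le ?_ ?_
    · rintro _ ⟨a, rfl⟩
      exact Subgroup.subset_closure (Or.inl ⟨a, rfl⟩)
    · rw [Subgroup.zpowers_le]
      exact Subgroup.subset_closure (Or.inr rfl)

theorem tgp_sd' {C : ∀ (G : Type) [Group G], Prop} (hC : ClosedE C) {V Q : Type} [Group Q]
    [MulAction Q V] {Λ : SimpleGraph V} {A : V → Type} [∀ v, Group (A v)]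
    (α : Q →* MulAut (GrP Λ A))
    (hΛ : ∀ (q : Q) (v w : V), Λ.Adj v w → Λ.Adj (q • v) (q • w))
    (hα : ∀ (q : Q) (v : V) (a : A v), ∃ b : A (q • v), α q (GrP.of Λ A v a) = GrP.of Λ A (q • v) b) :
    C (GrP Λ A ⋊[α] Q) ↔ C Q ∧ ∀ (v : V) (q : Q), q • v = v → C ↥(vq0 α v q) := by
  have h := tgp_sd α hC hΛ hα
  have h2 : ∀ (v : V) (q : Q), C ↥(vg α v ⊔
      Subgroup.zpowers (SemidirectProduct.inr q : GrP Λ A ⋊[α] Q)) ↔ C ↥(vq0 α v q) := by
    intro v q
    rw [vq0_eq]
  constructor
  · intro h1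
    have h3 := h.1 h1
    exact ⟨h3.1, fun v q hq => (h2 v q).1 (h3.2 v q hq)⟩
  · rintro ⟨h3, h4⟩
    exact h.2 ⟨h3, fun v q hq => (h2 v q).2 (h4 v q hq)⟩

end

theorem t_semidirect {C : ∀ (G : Type) [Group G], Prop} (hC : ClosedE C) : Semidirect C :=
  fun _ _ _ _ _ _ _ α hΛ hα => tgp_sd' hC α hΛ hα

end Pool.Agent.R773.FJ
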